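import Mathlib
import Pool.Agent.K1H90.AL.Six

/-!
# MP_528be1_nt: the dimensions of the spaces of cyclotomic multiple zeta values are superadditive

Let `Z_w(N)` be the rational space of the cyclotomic multiple zeta values of weight `w` and `D_w(N)`
the dimension of its span over the field of the algebraic numbers, so `D_w(N) ≤ dim Z_w(N)`. Then
`D_{a + b}(N) ≥ D_a(N) + D_b(N) - 1` for `N ≥ 2`. In particular
`dim Z_w(N) ≥ w (dim Z_1(N) - 1) + 1`; for `N = 6` this is at least `2 w + 1`. For `N = 2`,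
`dim Z_w(2) ≥ ⌊w / 2⌋ + 1`.

The sums `Z(N)` of the spaces are closed under multiplication (stuffle product; the series whose
first index is one converge only conditionally). For finite-dimensional spaces `A`, `B ≠ 0` over an
algebraically closed field `K` in an extension field one has `dim A B ≥ dim A + dim B - 1` (the
theorem of Cauchy and Davenport for spaces; proof by the `e`-transform). By Baker's theorem
(`Pool.Agent.H297R2`) the dimension of `Z_1(N)`, a space of logarithms of algebraic numbers, does not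
change over the algebraic numbers.
-/

set_option autoImplicit false

open Filter Topology

namespace Pool.Agent.Results.MP_528be1_nt.SuperadditiveDimensions

/-- `trunc [(a_1, z_1), ..., (a_n, z_n)] m` is the sum of `∏ z_j ^ l_j / l_j ^ a_j` over
`m > l_1 > ... > l_n ≥ 1` -/
noncomputable def trunc : List (ℕ × ℂ) → ℕ → ℂ
  | [], _ => 1
  | x :: l, m => ∑ j ∈ Finset.Ico 1 m, x.2 ^ j / (j : ℂ) ^ x.1 * trunc l j

/-- the lists `(a_1, z_1), ..., (a_n, z_n)` with `n ≥ 1`, positive integers `a_j`, `z_j ^ N = 1`,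
`a_1 + ... + a_n = w` and `(a_1, z_1) ≠ (1, 1)` -/
def Admissible (N w : ℕ) (u : List (ℕ × ℂ)) : Prop :=
  u ≠ [] ∧ (∀ x ∈ u, 1 ≤ x.1 ∧ x.2 ^ N = 1) ∧ (u.map Prod.fst).sum = w ∧
    ∀ x ∈ u.head?, x ≠ (1, 1)

/-- the space `Z_w(N)`: the rational span of the values of the series, that is, of the limits of the
truncated sums -/
noncomputable def Z (N w : ℕ) : Submodule ℚ ℂ :=
  Submodule.span ℚ {x | ∃ u, Admissible N w u ∧ Tendsto (trunc u) atTop (𝓝 x)}

/-- the span of `Z_w(N)` over the field of the algebraic numbers -/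
noncomputable def Zbar (N w : ℕ) : Submodule (algebraicClosure ℚ ℂ) ℂ :=
  Submodule.span (algebraicClosure ℚ ℂ) (Z N w : Set ℂ)

/-- the dimension of `Z_w(N)` over the rational numbers -/
noncomputable def d (N w : ℕ) : ℕ := Module.finrank ℚ (Z N w)

/-- the dimension of the span of `Z_w(N)` over the algebraic numbers -/
noncomputable def D (N w : ℕ) : ℕ := Module.finrank (algebraicClosure ℚ ℂ) (Zbar N w)

lemma Z_eq (N w : ℕ) : Z N w = Pool.Agent.K1H90.AL.Zs N w := by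
  have h1 : ∀ l m, trunc l m = Pool.Agent.K1H90.AL.tr l m := by
    intro l
    induction l with
    | nil => intro m; rw [trunc, Pool.Agent.K1H90.AL.tr]
    | cons s l ih =>
      intro m
      rw [trunc, Pool.Agent.K1H90.AL.tr]
      exact Finset.sum_congr rfl fun j _ => by rw [ih]
  have h3 : ∀ u, trunc u = Pool.Agent.K1H90.AL.tr u := fun u => funext (h1 u)
  unfold Z Pool.Agent.K1H90.AL.Zs
  simp only [h3]
  rfl

lemma Zbar_eq (N w : ℕ) : Zbar N w = Pool.Agent.K1H90.AL.Pq N w := by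
  unfold Zbar Pool.Agent.K1H90.AL.Pq
  rw [Z_eq]

/-- For all `N ≥ 2` and `a, b, w ≥ 1`: `D_a + D_b ≤ D_{a + b} + 1` and
`w (d_1 - 1) + 1 ≤ D_w ≤ d_w`. Moreover `d_w(2) ≥ ⌊w / 2⌋ + 1`, `d_w(6) ≥ 2 w + 1`, and
`d_w(N) ≥ w + 1` for `N ≥ 3`. -/
theorem result :
    (∀ N a b : ℕ, 2 ≤ N → 1 ≤ a → 1 ≤ b → D N a + D N b ≤ D N (a + b) + 1) ∧
    (∀ N w : ℕ, 2 ≤ N → 1 ≤ w → w * (d N 1 - 1) + 1 ≤ D N w ∧ D N w ≤ d N w) ∧
    (∀ w : ℕ, 1 ≤ w → w / 2 + 1 ≤ d 2 w ∧ 2 * w + 1 ≤ d 6 w) ∧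
    ∀ N w : ℕ, 3 ≤ N → 1 ≤ w → w + 1 ≤ d N w := by
  refine ⟨fun N a b hN ha hb => ?_, fun N w hN hw => ⟨?_, ?_⟩, fun w hw => ⟨?_, ?_⟩,
    fun N w hN hw => ?_⟩
  · unfold D
    rw [Zbar_eq, Zbar_eq, Zbar_eq]
    exact Pool.Agent.K1H90.AL.superadd hN ha hb
  · unfold D d
    rw [Zbar_eq, Z_eq]
    exact Pool.Agent.K1H90.AL.main4 hN w hw
  · unfold D d
    rw [Zbar_eq, Z_eq]
    exact Pool.Agent.K1H90.AL.Pq_le (by omega) w
  · unfold d
    rw [Z_eq]
    exact Pool.Agent.K1H90.AL.main2 w hw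
  · unfold d
    rw [Z_eq]
    have h1 := Pool.Agent.K1H90.AL.main4 (N := 6) (by norm_num) w hw
    have h2 := Pool.Agent.K1H90.AL.Pq_le (N := 6) (by norm_num) w
    have h3 : w * 2 ≤ w * (Module.finrank ℚ (Pool.Agent.K1H90.AL.Zs 6 1) - 1) :=
      Nat.mul_le_mul_left w (by have := Pool.Agent.K1H90.AL.six; omega)
    omega
  · unfold d
    rw [Z_eq]
    exact Pool.Agent.K1H90.AL.main3 N w hN hw

end Pool.Agent.Results.MP_528be1_nt.SuperadditiveDimensions
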