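import Mathlib
import Pool.Agent.K1H90.TW.Rt

/-!
# MP_528be1_nt: uniform linear independence of multiple Clausen values

Multiple polylogarithms `Li_{k, u_1, ..., u_r}(z, 1, ..., 1)` at a root of unity `z` whose order is
not four (`z = exp(πi/3)`: the multiple Clausen values that span `𝔠_w`; `z = -1`: alternating sums
in `𝔷_w(2)`), with first argument `k ≥ n` and ARBITRARY positive inner arguments up to `κ n`
(small ones included): boundedly many of them satisfy no small linear relation with integer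
coefficients of exponential height `C ^ n`, uniformly in the words.

Proof: multiple zeta values are germs modulo exponentially small ones; the leading part of a small
linear form at large primes `q` in two classes `±1` modulo the order of `z` separates the real and
the imaginary parts of the twisted sums, the inner parts are removed by the (reused) library
`Pool.Agent.Y760.ZF` for multiple zeta values. New helper files: `Pool.Agent.K1H90.TW`.
-/

set_option autoImplicit false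

namespace Pool.Agent.Results.MP_528be1_nt.UniformIndependence

/-- `harm [u_1, ..., u_r] m` is the sum of `∏ 1 / l_j ^ u_j` over `m > l_1 > ... > l_r ≥ 1` -/
noncomputable def harm : List ℕ → ℕ → ℝ
  | [], _ => 1
  | a :: u, m => ∑ j ∈ Finset.Ico 1 m, harm u j / (j : ℝ) ^ a

/-- `li z (k, [u_1, ..., u_r])` is the multiple polylogarithm `Li_{k, u_1, ..., u_r}(z, 1, ..., 1)`,
the sum of `z ^ l_0 / (l_0 ^ k l_1 ^ u_1 ⋯ l_r ^ u_r)` over `l_0 > l_1 > ... > l_r ≥ 1`; for
`z = exp (π i / 3)` it is the multiple Clausen value `μ_{k, u_1, ..., u_r}` -/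
noncomputable def li (z : ℂ) (w : ℕ × List ℕ) : ℂ :=
  ∑' m : ℕ, z ^ (m + 1) / ((m + 1 : ℕ) : ℂ) ^ w.1 * ((harm w.2 (m + 1) : ℝ) : ℂ)

/-- the word `(k, [u_1, ..., u_s])` has `s ≤ r`, `n ≤ k ≤ κ n` and `1 ≤ u_j ≤ κ n` for all `j` -/
def Admissible (n r : ℕ) (κ : ℝ) (w : ℕ × List ℕ) : Prop :=
  w.2.length ≤ r ∧ n ≤ w.1 ∧ (w.1 : ℝ) ≤ κ * n ∧ ∀ m ∈ w.2, 1 ≤ m ∧ (m : ℝ) ≤ κ * n

/-- Let `z` be a root of unity of order different from four, `θ_j` complex algebraic numbers such
that the functions `m ↦ Re(θ_j z ^ m)` are linearly independent over `ℚ` (for `z ≠ ±1` this means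
that the `θ_j` are linearly independent, for `z = ±1` that their real parts are), and `η_j` real
algebraic numbers that are linearly independent over `ℚ`. For all `N, r, κ, C` there are `B > 1` and
`n₀` such that for all `n ≥ n₀`, every set `W` of at most `N` admissible words and all integers
`a_{w,j}` and `b_j`, bounded by `C ^ n` and not all zero,
`|∑_{w,j} a_{w,j} Re(θ_j Li_w(z, 1, ..., 1)) + ∑_j b_j η_j| > B ^ (-n)`. -/
theorem result (M : ℕ) (hM : 0 < M) (z : ℂ) (hz : z ^ M = 1) (h4 : z ^ 2 = 1 ∨ z ^ 4 ≠ 1)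
    (l l' : ℕ) (θ : Fin l → ℂ) (hθ : ∀ j, IsAlgebraic ℚ (θ j))
    (hθi : LinearIndependent ℚ fun j (m : ℕ) => (θ j * z ^ m).re)
    (η : Fin l' → ℝ) (hη : ∀ j, IsAlgebraic ℚ (η j)) (hηi : LinearIndependent ℚ η)
    (N r : ℕ) (κ C : ℝ) :
    ∃ B : ℝ, 1 < B ∧ ∃ n₀ : ℕ, ∀ n : ℕ, n₀ ≤ n → ∀ W : Finset (ℕ × List ℕ), W.card ≤ N →
      (∀ w ∈ W, Admissible n r κ w) → ∀ (a : ℕ × List ℕ → Fin l → ℤ) (b : Fin l' → ℤ),
      ((∃ w ∈ W, ∃ j, a w j ≠ 0) ∨ ∃ j, b j ≠ 0) → (∀ w ∈ W, ∀ j, |(a w j : ℝ)| ≤ C ^ n) →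
      (∀ j, |(b j : ℝ)| ≤ C ^ n) →
        1 / B ^ n < |∑ w ∈ W, ∑ j, (a w j : ℝ) * (θ j * li z w).re + ∑ j, (b j : ℝ) * η j| := by
  have h1 : ∀ u m, harm u m = Pool.Agent.Y760.ZG.hr u m := by
    intro u
    induction u with
    | nil => intro m; rw [harm, Pool.Agent.Y760.ZG.hr]
    | cons a u ih =>
      intro m
      rw [harm, Pool.Agent.Y760.ZG.hr]
      exact Finset.sum_congr rfl fun j _ => by rw [ih]
  have h2 : ∀ w, li z w = Pool.Agent.Y760.ZF.TW.liC z w.1 w.2 := by
    intro w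
    unfold li Pool.Agent.Y760.ZF.TW.liC
    exact tsum_congr fun m => by rw [h1]
  obtain ⟨B, hB, n0, h3⟩ := Pool.Agent.Y760.ZF.TW.mainRt hM hz h4 θ hθ hθi η hη hηi N r κ C
  refine ⟨B, hB, n0, fun n hn W hWN hW a b hne ha hb => ?_⟩
  have h5 := h3 n hn W hWN hW a b hne ha hb
  rw [one_div]
  simp only [h2]
  exact h5

end Pool.Agent.Results.MP_528be1_nt.UniformIndependence
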